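import Pool.Agent.Q296.TA.Final

/-!
# MP_394e0d_co, Q1: triple arrays with `q + 1` rows, `q ^ 2` columns and `q (q + 1)` symbols

We prove that they exist for every prime power `q > 2`. Let `F` be the field with `q` elements. The
rows are the parallel classes of the affine plane over `F` (the slopes `r` in `F` and the class of the
vertical lines), the columns are its points and the symbols are its lines. The row of the vertical
lines has in the column `(x, y)` the line of slope `x` through `(x, y)`. The other rows are given by an
idempotent latin square `l` on `F` and by bijections `Y r : F → F` such that `Y (l r s) s - s * l r s =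
Y r s - s * r` for `r ≠ s`: the line in the row `r` and the column `(x, y)` has the slope `s` with
`l r s = x`, except that it is vertical if `y = Y x s` for this `s`, and that it has the slope `t` with
`Y r t = y` if `x = r` and it is not vertical. For odd `q` one may take `l r s = 2 s - r` and
`Y r s = s + r ^ 2 / 2`. For even `q ≥ 8` we take, with suitable `a` and `β` in `F`, the prolongation
of the latin square `s ^ 2 / r` of `F \ {0}`, and `Y r s = r s + s ^ 2 + β (r ^ 2 + s ^ 4 / r ^ 2)` for
`r, s ≠ 0`, `r ≠ s`. For `q = 4` there is an explicit array.
-/

namespace Pool.Agent.Results.MP_394e0d_co.TripleArraysExist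

open Pool.Agent.Q296.TA

/-- For every prime power `q > 2` there is a `((q + 1) × q ^ 2, q (q + 1))`-triple array. -/
theorem result : ∀ q : ℕ, IsPrimePow q → 2 < q →
    ∃ A : Fin (q + 1) → Fin (q ^ 2) → Fin (q * (q + 1)), IsTripleArray A :=
  main

end Pool.Agent.Results.MP_394e0d_co.TripleArraysExist
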